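import Pool.Agent.Lib.MP_fee02f_an.A4
import Pool.Agent.Lib.MP_fee02f_an.A5
import Pool.Agent.Lib.MP_fee02f_an.A6
import Pool.Agent.Lib.MP_fee02f_an.AR.A14
import Pool.Agent.Lib.MP_fee02f_an.AR.T2b
import Pool.Agent.Lib.MP_fee02f_an.AR.T3b
import Pool.Agent.Lib.MP_fee02f_an.AR.T5
import Pool.Agent.Lib.MP_fee02f_an.AR.T6

/-!
# MP_fee02f_an: property (RD) for cocompact lattices in products of `GL_4`, `SL_4`, `PGL_4`
over archimedean and non-archimedean local fields
-/

set_option autoImplicit false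

open scoped MatrixGroups

namespace Pool.Agent.Results.MP_fee02f_an.CocompactLatticesAllLocalFields

/-- the `ℓ²`-norm of an element of the complex group algebra -/
noncomputable def l2 {Γ : Type*} (f : MonoidAlgebra ℂ Γ) : ℝ :=
  Real.sqrt (f.coeff.sum fun _ c => ‖c‖ ^ 2)

/-- the norm `‖f‖_{H^s}`, that is the `ℓ²`-norm of `g ↦ (1 + ℓ g)^s f(g)` -/
noncomputable def sob {Γ : Type*} (ℓ : Γ → ℝ) (s : ℝ) (f : MonoidAlgebra ℂ Γ) : ℝ :=
  Real.sqrt (f.coeff.sum fun g c => ((1 + ℓ g) ^ s * ‖c‖) ^ 2)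

/-- property (RD): there are a length function `ℓ` and constants `C`, `s ≥ 0` such that left
convolution by every `f` in the group algebra has norm at most `C ‖f‖_{H^s}` on `ℓ²(Γ)` -/
def PropertyRD (Γ : Type*) [Group Γ] : Prop :=
  ∃ ℓ : Γ → ℝ, (∀ g, 0 ≤ ℓ g) ∧ (∀ g, ℓ g⁻¹ = ℓ g) ∧ (∀ g h, ℓ (g * h) ≤ ℓ g + ℓ h) ∧
    ∃ C s : ℝ, 0 ≤ s ∧ ∀ f g : MonoidAlgebra ℂ Γ, l2 (f * g) ≤ C * sob ℓ s f * l2 g

/-- a cocompact lattice: a discrete subgroup with compact quotient -/
def IsCocompactLattice {G : Type*} [Group G] [TopologicalSpace G] (Γ : Subgroup G) : Prop :=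
  DiscreteTopology Γ ∧ CompactSpace (G ⧸ Γ)

/-- the topological groups `GL_4(F)`, `SL_4(F)` and `PGL_4(F) = GL_4(F) / centre` (with the quotient
topology), where `F` is a non-archimedean local field (`gl`, `sl`, `pgl`) or `F` is the field of
real or complex numbers (`glA`, `slA`, `pglA`) -/
inductive Factor.{u} : (G : Type u) → Group G → TopologicalSpace G → Prop
  | gl (F : Type u) [Field F] [ValuativeRel F] [TopologicalSpace F]
      [IsNonarchimedeanLocalField F] : Factor (GL (Fin 4) F) inferInstance inferInstance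
  | sl (F : Type u) [Field F] [ValuativeRel F] [TopologicalSpace F]
      [IsNonarchimedeanLocalField F] : Factor SL(4, F) inferInstance inferInstance
  | pgl (F : Type u) [Field F] [ValuativeRel F] [TopologicalSpace F]
      [IsNonarchimedeanLocalField F] :
      Factor (GL (Fin 4) F ⧸ Subgroup.center (GL (Fin 4) F)) inferInstance inferInstance
  | glA (F : Type u) [RCLike F] : Factor (GL (Fin 4) F) inferInstance inferInstance
  | slA (F : Type u) [RCLike F] : Factor SL(4, F) inferInstance inferInstance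
  | pglA (F : Type u) [RCLike F] :
      Factor (GL (Fin 4) F ⧸ Subgroup.center (GL (Fin 4) F)) inferInstance inferInstance

theorem t2_pgl (F : Type*) [Field F] [TopologicalSpace F] [IsTopologicalRing F] [T2Space F] :
    T2Space (GL (Fin 4) F ⧸ Subgroup.center (GL (Fin 4) F)) := by
  have hc : IsClosed ((Subgroup.center (GL (Fin 4) F) : Subgroup _) : Set (GL (Fin 4) F)) := by
    have h1 : ((Subgroup.center (GL (Fin 4) F) : Subgroup _) : Set (GL (Fin 4) F)) =
        ⋂ h : GL (Fin 4) F, {g | h * g = g * h} := by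
      ext g
      simp [Subgroup.mem_center_iff]
    rw [h1]
    exact isClosed_iInter fun h => isClosed_eq (by fun_prop) (by fun_prop)
  infer_instance

theorem t2_of_local (F : Type*) [Field F] [ValuativeRel F] [TopologicalSpace F]
    [IsNonarchimedeanLocalField F] : T2Space F := by
  let := IsTopologicalAddGroup.rightUniformSpace F
  have := isUniformAddGroup_of_addCommGroup (G := F)
  infer_instance

theorem factor_good.{u} (G : Type u) (i1 : Group G) (i2 : TopologicalSpace G)
    (h : Factor G i1 i2) : T2Space G ∧ IsTopologicalGroup G ∧ RapidDecay.AdmA.{u, u} G := by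
  induction h with
  | gl F =>
    have := t2_of_local F
    exact ⟨inferInstance, inferInstance, RapidDecay.AdmA_of_Adm (RapidDecay.Adm_GL F)⟩
  | sl F =>
    have := t2_of_local F
    exact ⟨inferInstance, inferInstance, RapidDecay.AdmA_of_Adm (RapidDecay.Adm_SL F)⟩
  | pgl F =>
    have := t2_of_local F
    exact ⟨t2_pgl F, inferInstance, RapidDecay.AdmA_of_Adm (RapidDecay.Adm_PGL F)⟩
  | glA F => exact ⟨inferInstance, inferInstance, RapidDecay.AdmA_GLk F⟩
  | slA F => exact ⟨inferInstance, inferInstance, RapidDecay.AdmA_SLk F⟩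
  | pglA F => exact ⟨t2_pgl F, inferInstance, RapidDecay.AdmA_PGLk F⟩

/-- property (RD) for cocompact lattices in finite products of `GL_4`, `SL_4` and `PGL_4` over
local fields, archimedean or not -/
theorem result.{u} {I : Type} [Fintype I] (G : I → Type u) [hg : ∀ i, Group (G i)]
    [ht : ∀ i, TopologicalSpace (G i)] (hG : ∀ i, Factor (G i) (hg i) (ht i))
    (Γ : Subgroup (∀ i, G i)) (hΓ : IsCocompactLattice Γ) : PropertyRD Γ := by
  have h2 : ∀ i, T2Space (G i) := fun i => (factor_good _ _ _ (hG i)).1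
  have h3 : ∀ i, IsTopologicalGroup (G i) := fun i => (factor_good _ _ _ (hG i)).2.1
  have h4 : RapidDecay.AdmA.{u, u} (∀ i, G i) :=
    RapidDecay.AdmA.pi G fun i => (factor_good _ _ _ (hG i)).2.2
  have h5 : DiscreteTopology Γ := hΓ.1
  have h6 : CompactSpace ((∀ i, G i) ⧸ Γ) := hΓ.2
  obtain ⟨ℓ, hℓ, hrd⟩ := RapidDecay.AdmA.rd.{u, u} (fun S => RDA.rd_of_AHS S) h4 Γ
  exact ⟨ℓ, hℓ.nonneg, hℓ.inv, hℓ.mul_le, hrd⟩

end Pool.Agent.Results.MP_fee02f_an.CocompactLatticesAllLocalFields
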