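import Pool.Agent.Lib.MP_fee02f_an.A1
import Pool.Agent.Lib.MP_fee02f_an.A2
import Pool.Agent.Lib.MP_fee02f_an.A4
import Pool.Agent.Lib.MP_fee02f_an.A5
import Pool.Agent.Lib.MP_fee02f_an.A6

/-!
# MP_fee02f_an: property (RD) for cocompact lattices in products of `GL_4`, `SL_4`, `PGL_4`
over non-archimedean local fields
-/

open scoped MatrixGroups

namespace Pool.Agent.Results.MP_fee02f_an.CocompactLatticesGL4

/-- the `ℓ²`-norm of an element of the complex group algebra -/
noncomputable def l2 {Γ : Type*} (f : MonoidAlgebra ℂ Γ) : ℝ :=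
  Real.sqrt (f.coeff.sum fun _ c => ‖c‖ ^ 2)

/-- the norm `‖f‖_{H^s}`, that is the `ℓ²`-norm of `g ↦ (1 + ℓ g)^s f(g)` -/
noncomputable def sob {Γ : Type*} (ℓ : Γ → ℝ) (s : ℝ) (f : MonoidAlgebra ℂ Γ) : ℝ :=
  Real.sqrt (f.coeff.sum fun g c => ((1 + ℓ g) ^ s * ‖c‖) ^ 2)

/-- property (RD): there are a length function `ℓ` and constants `C`, `s ≥ 0` such that left
convolution by every `f` in the group algebra has norm at most `C ‖f‖_{H^s}` on `ℓ²(Γ)` -/
def PropertyRD (Γ : Type*) [Group Γ] : Prop :=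
  ∃ ℓ : Γ → ℝ, (∀ g, 0 ≤ ℓ g) ∧ (∀ g, ℓ g⁻¹ = ℓ g) ∧ (∀ g h, ℓ (g * h) ≤ ℓ g + ℓ h) ∧
    ∃ C s : ℝ, 0 ≤ s ∧ ∀ f g : MonoidAlgebra ℂ Γ, l2 (f * g) ≤ C * sob ℓ s f * l2 g

theorem t2_of_local (F : Type*) [Field F] [ValuativeRel F] [TopologicalSpace F]
    [IsNonarchimedeanLocalField F] : T2Space F := by
  let := IsTopologicalAddGroup.rightUniformSpace F
  have := isUniformAddGroup_of_addCommGroup (G := F)
  infer_instance

theorem t2_pgl (F : Type*) [Field F] [ValuativeRel F] [TopologicalSpace F]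
    [IsNonarchimedeanLocalField F] :
    T2Space (GL (Fin 4) F ⧸ Subgroup.center (GL (Fin 4) F)) := by
  have hF : T2Space F := t2_of_local F
  have hc : IsClosed ((Subgroup.center (GL (Fin 4) F) : Subgroup _) : Set (GL (Fin 4) F)) := by
    have h1 : ((Subgroup.center (GL (Fin 4) F) : Subgroup _) : Set (GL (Fin 4) F)) =
        ⋂ h : GL (Fin 4) F, {g | h * g = g * h} := by
      ext g
      simp [Subgroup.mem_center_iff]
    rw [h1]
    exact isClosed_iInter fun h => isClosed_eq (by fun_prop) (by fun_prop)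
  infer_instance

section Groups

universe u

variable {I : Type} (F : I → Type u) [∀ i, Field (F i)]

/-- the product of the groups `GL_4(F_i)` -/
def ProdGL : Type u := ∀ i, GL (Fin 4) (F i)

noncomputable instance : Group (ProdGL F) :=
  show Group (∀ i, GL (Fin 4) (F i)) from inferInstance

instance [∀ i, TopologicalSpace (F i)] : TopologicalSpace (ProdGL F) :=
  show TopologicalSpace (∀ i, GL (Fin 4) (F i)) from inferInstance

/-- the product of the groups `SL_4(F_i)` -/
def ProdSL : Type u := ∀ i, SL(4, F i)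

noncomputable instance : Group (ProdSL F) := show Group (∀ i, SL(4, F i)) from inferInstance

instance [∀ i, TopologicalSpace (F i)] : TopologicalSpace (ProdSL F) :=
  show TopologicalSpace (∀ i, SL(4, F i)) from inferInstance

/-- the product of the groups `PGL_4(F_i) = GL_4(F_i) / centre`, each with the quotient topology -/
def ProdPGL : Type u := ∀ i, GL (Fin 4) (F i) ⧸ Subgroup.center (GL (Fin 4) (F i))

noncomputable instance : Group (ProdPGL F) :=
  show Group (∀ i, GL (Fin 4) (F i) ⧸ Subgroup.center (GL (Fin 4) (F i))) from inferInstance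

instance [∀ i, TopologicalSpace (F i)] : TopologicalSpace (ProdPGL F) :=
  show TopologicalSpace (∀ i, GL (Fin 4) (F i) ⧸ Subgroup.center (GL (Fin 4) (F i))) from
    inferInstance

end Groups

/-- a cocompact lattice: a discrete subgroup with compact quotient -/
def IsCocompactLattice {G : Type*} [Group G] [TopologicalSpace G] (Γ : Subgroup G) : Prop :=
  DiscreteTopology Γ ∧ CompactSpace (G ⧸ Γ)

/-- property (RD) for cocompact lattices in finite products of `GL_4`, `SL_4` and `PGL_4` over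
non-archimedean local fields -/
theorem result.{u} {I J K : Type} [Fintype I] [Fintype J] [Fintype K]
    (F : I → Type u) [∀ i, Field (F i)] [∀ i, ValuativeRel (F i)] [∀ i, TopologicalSpace (F i)]
    [∀ i, IsNonarchimedeanLocalField (F i)]
    (E : J → Type u) [∀ j, Field (E j)] [∀ j, ValuativeRel (E j)] [∀ j, TopologicalSpace (E j)]
    [∀ j, IsNonarchimedeanLocalField (E j)]
    (L : K → Type u) [∀ k, Field (L k)] [∀ k, ValuativeRel (L k)] [∀ k, TopologicalSpace (L k)]
    [∀ k, IsNonarchimedeanLocalField (L k)]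
    (Γ : Subgroup (ProdGL F × ProdSL E × ProdPGL L)) (hΓ : IsCocompactLattice Γ) :
    PropertyRD Γ := by
  have hF : ∀ i, T2Space (F i) := fun i => t2_of_local (F i)
  have hE : ∀ j, T2Space (E j) := fun j => t2_of_local (E j)
  have hT : ∀ k, T2Space (GL (Fin 4) (L k) ⧸ Subgroup.center (GL (Fin 4) (L k))) :=
    fun k => t2_pgl (L k)
  have h : RapidDecay.Adm.{u, u} ((∀ i, GL (Fin 4) (F i)) × (∀ j, SL(4, E j)) ×
      (∀ k, GL (Fin 4) (L k) ⧸ Subgroup.center (GL (Fin 4) (L k)))) :=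
    RapidDecay.Adm.prod (RapidDecay.Adm.pi _ fun i => RapidDecay.Adm_GL (F i))
      (RapidDecay.Adm.prod (RapidDecay.Adm.pi _ fun j => RapidDecay.Adm_SL (E j))
        (RapidDecay.Adm.pi _ fun k => RapidDecay.Adm_PGL (L k)))
  let Γ' : Subgroup ((∀ i, GL (Fin 4) (F i)) × (∀ j, SL(4, E j)) ×
      (∀ k, GL (Fin 4) (L k) ⧸ Subgroup.center (GL (Fin 4) (L k)))) := Γ
  have h1 : DiscreteTopology Γ' := hΓ.1
  have h2 : CompactSpace (((∀ i, GL (Fin 4) (F i)) × (∀ j, SL(4, E j)) ×
      (∀ k, GL (Fin 4) (L k) ⧸ Subgroup.center (GL (Fin 4) (L k)))) ⧸ Γ') := hΓ.2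
  obtain ⟨ℓ, hℓ, hrd⟩ := h.rd Γ'
  exact ⟨ℓ, hℓ.nonneg, hℓ.inv, hℓ.mul_le, hrd⟩

end Pool.Agent.Results.MP_fee02f_an.CocompactLatticesGL4
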