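import Pool.Agent.Lib.MP_fee02f_an.M10b

/-!
# MP_fee02f_an: property (RD) for discrete subgroups of products of `GL_4(F)` over
non-archimedean local fields, with bounded finite subgroups (automatic in characteristic zero)
-/

open scoped MatrixGroups

namespace Pool.Agent.Results.MP_fee02f_an.DiscreteSubgroupsGL4

/-- the `ℓ²`-norm of an element of the complex group algebra -/
noncomputable def l2 {Γ : Type*} (f : MonoidAlgebra ℂ Γ) : ℝ :=
  Real.sqrt (f.coeff.sum fun _ c => ‖c‖ ^ 2)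

/-- the norm `‖f‖_{H^s}`, that is the `ℓ²`-norm of `g ↦ (1 + ℓ g)^s f(g)` -/
noncomputable def sob {Γ : Type*} (ℓ : Γ → ℝ) (s : ℝ) (f : MonoidAlgebra ℂ Γ) : ℝ :=
  Real.sqrt (f.coeff.sum fun g c => ((1 + ℓ g) ^ s * ‖c‖) ^ 2)

/-- property (RD): there are a length function `ℓ` and constants `C`, `s ≥ 0` such that left
convolution by every `f` in the group algebra has norm at most `C ‖f‖_{H^s}` on `ℓ²(Γ)` -/
def PropertyRD (Γ : Type*) [Group Γ] : Prop :=
  ∃ ℓ : Γ → ℝ, (∀ g, 0 ≤ ℓ g) ∧ (∀ g, ℓ g⁻¹ = ℓ g) ∧ (∀ g h, ℓ (g * h) ≤ ℓ g + ℓ h) ∧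
    ∃ C s : ℝ, 0 ≤ s ∧ ∀ f g : MonoidAlgebra ℂ Γ, l2 (f * g) ≤ C * sob ℓ s f * l2 g

/-- the orders of the finite subgroups of `Γ` are bounded -/
def BoundedFiniteSubgroups (Γ : Type*) [Group Γ] : Prop :=
  ∃ b : ℕ, ∀ H : Subgroup Γ, Finite H → Nat.card H ≤ b

section Groups

universe u

variable {I : Type} (F : I → Type u) [∀ i, Field (F i)]

/-- the product of the groups `GL_4(F_i)` -/
def ProdGL : Type u := ∀ i, GL (Fin 4) (F i)

noncomputable instance : Group (ProdGL F) :=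
  show Group (∀ i, GL (Fin 4) (F i)) from inferInstance

instance [∀ i, TopologicalSpace (F i)] : TopologicalSpace (ProdGL F) :=
  show TopologicalSpace (∀ i, GL (Fin 4) (F i)) from inferInstance

end Groups

/-- property (RD) for discrete subgroups of finite products of groups `GL_4(F_i)`, if the orders
of their finite subgroups are bounded or the fields `F_i` have characteristic zero -/
theorem result.{u} {I : Type} [Fintype I] (F : I → Type u) [∀ i, Field (F i)]
    [∀ i, ValuativeRel (F i)] [∀ i, TopologicalSpace (F i)]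
    [∀ i, IsNonarchimedeanLocalField (F i)] (Γ : Subgroup (ProdGL F)) (hΓ : DiscreteTopology Γ)
    (h : (∀ i, CharZero (F i)) ∨ BoundedFiniteSubgroups Γ) : PropertyRD Γ := by
  let Γ' : Subgroup (∀ i, GL (Fin 4) (F i)) := Γ
  have h1 : DiscreteTopology Γ' := hΓ
  obtain ⟨ℓ, hℓ, hrd⟩ := RapidDecay.rd_discrete F Γ' h
  exact ⟨ℓ, hℓ.nonneg, hℓ.inv, hℓ.mul_le, hrd⟩

end Pool.Agent.Results.MP_fee02f_an.DiscreteSubgroupsGL4
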