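import Pool.Agent.Lib.MP_fee02f_an.A4
import Pool.Agent.Lib.MP_fee02f_an.A5
import Pool.Agent.Lib.MP_fee02f_an.A6
import Pool.Agent.Lib.MP_fee02f_an.M2
import Pool.Agent.Lib.MP_fee02f_an.AR.T3b
import Pool.Agent.Lib.MP_fee02f_an.AR.T5
import Pool.Agent.Lib.MP_fee02f_an.AR.T6
import Pool.Agent.Lib.MP_fee02f_an.AR.V4
import Pool.Agent.Lib.MP_fee02f_an.AR.V7
import Pool.Agent.Lib.MP_fee02f_an.AR.V8
import Pool.Agent.Lib.MP_fee02f_an.AR.V9
import Pool.Agent.Lib.MP_fee02f_an.AR.W3

/-!
# MP_fee02f_an: property (RD) for uniformly discrete subgroups, in particular cocompact lattices,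
of groups built from `GL_4`, `SL_4`, `PGL_4` over local fields
-/

set_option autoImplicit false

open scoped MatrixGroups

namespace Pool.Agent.Results.MP_fee02f_an.UniformlyDiscreteSubgroups

/-- the `ℓ²`-norm of an element of the complex group algebra -/
noncomputable def l2 {Γ : Type*} (f : MonoidAlgebra ℂ Γ) : ℝ :=
  Real.sqrt (f.coeff.sum fun _ c => ‖c‖ ^ 2)

/-- the norm `‖f‖_{H^s}`, that is the `ℓ²`-norm of `g ↦ (1 + ℓ g)^s f(g)` -/
noncomputable def sob {Γ : Type*} (ℓ : Γ → ℝ) (s : ℝ) (f : MonoidAlgebra ℂ Γ) : ℝ :=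
  Real.sqrt (f.coeff.sum fun g c => ((1 + ℓ g) ^ s * ‖c‖) ^ 2)

/-- property (RD): there are a length function `ℓ` and constants `C`, `s ≥ 0` such that left
convolution by every `f` in the group algebra has norm at most `C ‖f‖_{H^s}` on `ℓ²(Γ)` -/
def PropertyRD (Γ : Type*) [Group Γ] : Prop :=
  ∃ ℓ : Γ → ℝ, (∀ g, 0 ≤ ℓ g) ∧ (∀ g, ℓ g⁻¹ = ℓ g) ∧ (∀ g h, ℓ (g * h) ≤ ℓ g + ℓ h) ∧
    ∃ C s : ℝ, 0 ≤ s ∧ ∀ f g : MonoidAlgebra ℂ Γ, l2 (f * g) ≤ C * sob ℓ s f * l2 g

/-- a cocompact lattice: a discrete subgroup with compact quotient -/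
def IsCocompactLattice {G : Type*} [Group G] [TopologicalSpace G] (Γ : Subgroup G) : Prop :=
  DiscreteTopology Γ ∧ CompactSpace (G ⧸ Γ)

/-- a uniformly discrete subgroup: for every compact set `K` the numbers of elements of `Γ` in the
conjugates `h K h⁻¹` are bounded -/
def UniformlyDiscrete {G : Type*} [Group G] [TopologicalSpace G] (Γ : Subgroup G) : Prop :=
  ∀ K : Set G, IsCompact K → ∃ b : ℕ, ∀ h : G, {γ : Γ | h⁻¹ * (γ : G) * h ∈ K}.Finite ∧
    {γ : Γ | h⁻¹ * (γ : G) * h ∈ K}.ncard ≤ b

/-- the group `G` has a compact open subgroup, `Γ` is discrete, and the orders of the finite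
subgroups of `Γ` are bounded -/
def BoundedDiscrete {G : Type*} [Group G] [TopologicalSpace G] (Γ : Subgroup G) : Prop :=
  (∃ U : Subgroup G, IsOpen (U : Set G) ∧ IsCompact (U : Set G)) ∧ DiscreteTopology Γ ∧
    ∃ b : ℕ, ∀ F : Subgroup Γ, (F : Set Γ).Finite → (F : Set Γ).ncard ≤ b

/-- a uniformly proper homomorphism `φ : H → G`: for every compact set `K` of `G` there are a compact
set `K'` of `H` and a number `N` such that for every `h` in `G` the elements `g` of `H` with `φ g`
in `h K h⁻¹` lie in at most `N` translates of `l K' l⁻¹` for some `l` in `H` -/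
def UniformlyProper {H G : Type*} [Group H] [TopologicalSpace H] [Group G] [TopologicalSpace G]
    (φ : H →* G) : Prop :=
  ∀ K : Set G, IsCompact K → ∃ (K' : Set H) (N : ℕ), IsCompact K' ∧
    ∀ h : G, ∃ (l : H) (s : Finset H), s.card ≤ N ∧ ∀ g : H,
      h⁻¹ * φ g * h ∈ K → ∃ t ∈ s, l⁻¹ * (t⁻¹ * g) * l ∈ K'

/-- the conjugate transpose of an invertible matrix (`τ` is applied to the entries) -/
def ct {E : Type*} [Field E] (τ : E ≃+* E) (g : GL (Fin 4) E) : Matrix (Fin 4) (Fin 4) E :=
  (g.1.map τ).transpose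

/-- `L` is the isometry group of the form with Gram matrix `S` -/
def IsIsometryGroup {E : Type*} [Field E] (τ : E ≃+* E) (S : GL (Fin 4) E)
    (L : Subgroup (GL (Fin 4) E)) : Prop :=
  ∀ g, g ∈ L ↔ ct τ g * S.1 * g.1 = S.1

/-- `H` is the quotient of `G` by its centre -/
inductive ModCenter.{u} (G : Type u) [Group G] [TopologicalSpace G] :
    (H : Type u) → Group H → TopologicalSpace H → Prop
  | mk : ModCenter G (G ⧸ Subgroup.center G) inferInstance inferInstance

/-- `GL_4`, `SL_4`, `PGL_4` over non-archimedean local fields -/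
inductive LinearNA.{u} : (G : Type u) → Group G → TopologicalSpace G → Prop
  | gl (F : Type u) [Field F] [ValuativeRel F] [TopologicalSpace F]
      [IsNonarchimedeanLocalField F] : LinearNA (GL (Fin 4) F) inferInstance inferInstance
  | sl (F : Type u) [Field F] [ValuativeRel F] [TopologicalSpace F]
      [IsNonarchimedeanLocalField F] : LinearNA SL(4, F) inferInstance inferInstance
  | pgl (F : Type u) [Field F] [ValuativeRel F] [TopologicalSpace F]
      [IsNonarchimedeanLocalField F] (H : Type u) [hg : Group H] [ht : TopologicalSpace H]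
      (h : ModCenter (GL (Fin 4) F) H hg ht) : LinearNA H hg ht

/-- `GL_4`, `SL_4`, `PGL_4` over `ℝ`, `ℂ` -/
inductive LinearA.{u} : (G : Type u) → Group G → TopologicalSpace G → Prop
  | gl (F : Type u) [RCLike F] : LinearA (GL (Fin 4) F) inferInstance inferInstance
  | sl (F : Type u) [RCLike F] : LinearA SL(4, F) inferInstance inferInstance
  | pgl (F : Type u) [RCLike F] (H : Type u) [hg : Group H] [ht : TopologicalSpace H]
      (h : ModCenter (GL (Fin 4) F) H hg ht) : LinearA H hg ht

/-- the Gram matrix `S` is hermitian or antihermitian for the continuous involution `τ` -/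
def IsEpsForm {E : Type*} [Field E] [TopologicalSpace E] (τ : E ≃+* E) (S : GL (Fin 4) E) : Prop :=
  Continuous τ ∧ (∀ x, τ (τ x) = x) ∧ ∃ ε : E, ε * ε = 1 ∧ ct τ S = ε • S.1

/-- `L` is the isometry group of a nondegenerate hermitian or antihermitian form -/
def IsClassical {E : Type*} [Field E] [TopologicalSpace E] (L : Subgroup (GL (Fin 4) E)) : Prop :=
  ∃ (τ : E ≃+* E) (S : GL (Fin 4) E), IsEpsForm τ S ∧ IsIsometryGroup τ S L

/-- `H` is a subgroup `L` of `G` with the property `P` -/
inductive SubgroupWith.{u} (G : Type u) [Group G] [TopologicalSpace G] (P : Subgroup G → Prop) :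
    (H : Type u) → Group H → TopologicalSpace H → Prop
  | mk (L : Subgroup G) (hL : P L) : SubgroupWith G P L inferInstance inferInstance

/-- isometry groups of nondegenerate hermitian and antihermitian forms over non-archimedean local
fields of characteristic not `2` -/
inductive IsometryNA.{u} : (G : Type u) → Group G → TopologicalSpace G → Prop
  | mk (F : Type u) [Field F] [ValuativeRel F] [TopologicalSpace F]
      [IsNonarchimedeanLocalField F] (h2 : (2 : F) ≠ 0) (H : Type u) [hg : Group H]
      [ht : TopologicalSpace H] (h : SubgroupWith (GL (Fin 4) F) IsClassical H hg ht) :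
      IsometryNA H hg ht

/-- the conjugate transpose of an invertible matrix over `ℝ`, `ℂ` -/
noncomputable def ctA {F : Type*} [RCLike F] (g : GL (Fin 4) F) : GL (Fin 4) F := star g

/-- `L` is the group of fixed points of a continuous involution of `G` which commutes with `s` -/
def IsFixedGroup {G : Type*} [Group G] [TopologicalSpace G] (s : G → G) (L : Subgroup G) : Prop :=
  ∃ σ : G →* G, Continuous σ ∧ ∀ g, σ (σ g) = g ∧ σ (s g) = s (σ g) ∧ (g ∈ L ↔ σ g = g)

/-- isometry groups of nondegenerate hermitian and antihermitian forms over `ℝ`, `ℂ`, and fixed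
groups of continuous involutions of `GL_4(ℝ)`, `GL_4(ℂ)` which commute with the conjugate
transpose -/
inductive ClassicalA.{u} : (G : Type u) → Group G → TopologicalSpace G → Prop
  | isometry (F : Type u) [RCLike F] (H : Type u) [hg : Group H] [ht : TopologicalSpace H]
      (h : SubgroupWith (GL (Fin 4) F) IsClassical H hg ht) : ClassicalA H hg ht
  | fixed (F : Type u) [RCLike F] (H : Type u) [hg : Group H] [ht : TopologicalSpace H]
      (h : SubgroupWith (GL (Fin 4) F) (IsFixedGroup ctA) H hg ht) : ClassicalA H hg ht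

/-- `φ : H → G` is continuous, preimages of compact sets are compact, and the image is cocompact -/
def ProperCocompact {H G : Type*} [Group H] [TopologicalSpace H] [Group G] [TopologicalSpace G]
    (φ : H →* G) : Prop :=
  Continuous φ ∧ (∀ K : Set G, IsCompact K → IsCompact (φ ⁻¹' K)) ∧
    ∃ C : Set G, IsCompact C ∧ ∀ g : G, ∃ l : H, (φ l)⁻¹ * g ∈ C

/-- `G` has a compact open subgroup, `L` is closed, and all compact subgroups of `L` are conjugate
in `L` into one compact set -/
def MaxCompact {G : Type*} [Group G] [TopologicalSpace G] (L : Subgroup G) : Prop :=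
  (∃ U : Subgroup G, IsOpen (U : Set G) ∧ IsCompact (U : Set G)) ∧ IsClosed (L : Set G) ∧
    ∃ M : Set L, IsCompact M ∧
      ∀ C : Subgroup L, IsCompact (C : Set L) → ∃ l : L, ∀ c ∈ C, l⁻¹ * c * l ∈ M

/-- the ways to pass from a group `G` of the class to another group `H` of the class -/
inductive Step.{u} (G : Type u) [Group G] [TopologicalSpace G] :
    (H : Type u) → Group H → TopologicalSpace H → Prop
  /-- quotients by finite normal subgroups -/
  | quot (N : Subgroup G) [N.Normal] (hN : (N : Set G).Finite) :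
      Step G (G ⧸ N) inferInstance inferInstance
  /-- closed cocompact subgroups, finite coverings -/
  | proper (H : Type u) [hg : Group H] [ht : TopologicalSpace H] [T2Space H]
      [IsTopologicalGroup H] (φ : H →* G) (hφ : ProperCocompact φ) : Step G H hg ht
  /-- certain closed subgroups -/
  | maxCompact (L : Subgroup G) (hL : MaxCompact L) : Step G L inferInstance inferInstance
  /-- locally compact groups `H` with a uniformly proper continuous homomorphism to `G` -/
  | unif (H : Type u) [hg : Group H] [ht : TopologicalSpace H] [T2Space H] [IsTopologicalGroup H]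
      (h0 : ∃ K ∈ nhds (1 : H), IsCompact K) (φ : H →* G) (hφ : Continuous φ)
      (hU : UniformlyProper φ) : Step G H hg ht

/-- the class of topological groups for which the theorem is proved -/
inductive Cls.{u} : (G : Type u) → Group G → TopologicalSpace G → Prop
  | base (G : Type u) [hg : Group G] [ht : TopologicalSpace G]
      (h : LinearNA G hg ht ∨ LinearA G hg ht ∨ IsometryNA G hg ht ∨ ClassicalA G hg ht) : Cls G hg ht
  /-- finite products -/
  | prod {I : Type} [Fintype I] (G : I → Type u) [hg : ∀ i, Group (G i)]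
      [ht : ∀ i, TopologicalSpace (G i)] (h : ∀ i, Cls (G i) (hg i) (ht i)) :
      Cls (∀ i, G i) inferInstance inferInstance
  | step (G : Type u) [hg : Group G] [ht : TopologicalSpace G] (h : Cls G hg ht)
      (H : Type u) [hg' : Group H] [ht' : TopologicalSpace H] (hs : Step G H hg' ht') :
      Cls H hg' ht'

theorem t2_pgl (F : Type*) [Field F] [TopologicalSpace F] [IsTopologicalRing F] [T2Space F] :
    T2Space (GL (Fin 4) F ⧸ Subgroup.center (GL (Fin 4) F)) := by
  have hc : IsClosed ((Subgroup.center (GL (Fin 4) F) : Subgroup _) : Set (GL (Fin 4) F)) := by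
    have h1 : ((Subgroup.center (GL (Fin 4) F) : Subgroup _) : Set (GL (Fin 4) F)) =
        ⋂ h : GL (Fin 4) F, {g | h * g = g * h} := by
      ext g
      simp [Subgroup.mem_center_iff]
    rw [h1]
    exact isClosed_iInter fun h => isClosed_eq (by fun_prop) (by fun_prop)
  infer_instance

theorem t2_of_local (F : Type*) [Field F] [ValuativeRel F] [TopologicalSpace F]
    [IsNonarchimedeanLocalField F] : T2Space F := by
  let := IsTopologicalAddGroup.rightUniformSpace F
  have := isUniformAddGroup_of_addCommGroup (G := F)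
  infer_instance

theorem base_good.{u} (G : Type u) (i1 : Group G) (i2 : TopologicalSpace G)
    (h : LinearNA G i1 i2 ∨ LinearA G i1 i2 ∨ IsometryNA G i1 i2 ∨ ClassicalA G i1 i2) :
    RapidDecay.Good.{u} G := by
  rcases h with h | h | h | h
  · cases h with
    | gl F =>
      have := t2_of_local F
      exact RapidDecay.Good.of_admA (RapidDecay.AdmA_of_Adm (RapidDecay.Adm_GL F))
    | sl F =>
      have := t2_of_local F
      exact RapidDecay.Good.of_admA (RapidDecay.AdmA_of_Adm (RapidDecay.Adm_SL F))
    | pgl F _ h =>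
      cases h
      have := t2_of_local F
      have := t2_pgl F
      exact RapidDecay.Good.of_admA (RapidDecay.AdmA_of_Adm (RapidDecay.Adm_PGL F))
  · cases h with
    | gl F => exact RapidDecay.Good.of_admA (RapidDecay.AdmA_GLk F)
    | sl F => exact RapidDecay.Good.of_admA (RapidDecay.AdmA_SLk F)
    | pgl F _ h =>
      cases h
      have := t2_pgl F
      exact RapidDecay.Good.of_admA (RapidDecay.AdmA_PGLk F)
  · obtain ⟨F, h2, _, h⟩ := h
    obtain ⟨L, τ, S, ⟨hv, hτ, ε, hε, hS⟩, hL⟩ := h
    have := t2_of_local F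
    have hLe : L = RapidDecay.isoGrp τ S.1 := by
      ext g
      exact hL g
    subst hLe
    have hE : RapidDecay.EpsForm τ S ε :=
      ⟨hτ, RapidDecay.vLoc_of_continuous τ hτ hv, hε, hS⟩
    exact (RapidDecay.Good.of_admA (RapidDecay.AdmA_of_Adm (RapidDecay.Adm_GL F))).subgroup _
      (RapidDecay.isClosed_isoGrp hE)
      (RapidDecay.UHom.of_maxCpt (MulAction.stabilizer (GL (Fin 4) F) (RapidDecay.M2_std F))
        (RapidDecay.isOpen_stab_lat _) (RapidDecay.isCompact_stab_lat _) _
        (RapidDecay.isClosed_isoGrp hE) (RapidDecay.maxCpt_isoGrp hE h2))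
  · cases h with
    | isometry F _ h =>
      obtain ⟨L, τ, S, ⟨hv, hτ, ε, hε, hS⟩, hL⟩ := h
      have hLe : L = RapidDecay.isoGrp τ S.1 := by
        ext g
        exact hL g
      subst hLe
      exact RapidDecay.Good.of_admA
        (RapidDecay.AdmA_iso F τ (RapidDecay.norm_of_continuous τ hv) hτ S ε hε hS).2.2
    | fixed F _ h =>
      obtain ⟨L, σ, hc, hσ⟩ := h
      have hLe : L = RapidDecay.fixSub σ := by
        ext g
        exact (hσ g).2.2
      subst hLe
      exact RapidDecay.Good.of_admA
        (RapidDecay.AdmA_fix F σ hc (fun g => (hσ g).1) (fun g => (hσ g).2.1))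

theorem step_good.{u} (G : Type u) [Group G] [TopologicalSpace G] (ih : RapidDecay.Good.{u} G)
    (H : Type u) (i1 : Group H) (i2 : TopologicalSpace H) (h : Step G H i1 i2) :
    RapidDecay.Good.{u} H := by
  cases h with
  | quot N hN => exact ih.quot N hN
  | proper _ φ hφ =>
    obtain ⟨hφ, hp, hC⟩ := hφ
    have := ih.1
    have := ih.2.1
    refine ih.hom ?_ φ hφ (RapidDecay.UHom.of_proper φ hp hC)
    obtain ⟨K, hK, hKc⟩ := ih.nhds
    exact ⟨φ ⁻¹' K, hφ.continuousAt.preimage_mem_nhds (by rwa [map_one]), hp K hKc⟩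
  | maxCompact L hL =>
    obtain ⟨hU, hLc, hM⟩ := hL
    have := ih.2.1
    obtain ⟨U, hUo, hUc⟩ := hU
    exact ih.subgroup L hLc (RapidDecay.UHom.of_compact_subgroups U hUo hUc L hLc hM)
  | unif _ h0 φ hφ hU => exact ih.hom h0 φ hφ hU

theorem cls_good.{u} (G : Type u) (i1 : Group G) (i2 : TopologicalSpace G)
    (h : Cls G i1 i2) : RapidDecay.Good.{u} G := by
  induction h with
  | base G h => exact base_good G _ _ h
  | prod G h ih => exact RapidDecay.Good.pi G ih
  | step G h H hs ih => exact step_good G ih H _ _ hs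

/-- property (RD) for cocompact lattices, more generally for uniformly discrete subgroups, and for
discrete subgroups with bounded finite subgroups if there is a compact open subgroup -/
theorem result.{u} (G : Type u) [hg : Group G] [ht : TopologicalSpace G] (hG : Cls G hg ht)
    (Γ : Subgroup G) (hΓ : IsCocompactLattice Γ ∨ UniformlyDiscrete Γ ∨ BoundedDiscrete Γ) :
    PropertyRD Γ := by
  have h := cls_good G hg ht hG
  have h1 : T2Space G := h.1
  have h2 : IsTopologicalGroup G := h.2.1
  have hu : RapidDecay.UDisc Γ := by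
    rcases hΓ with hΓ | hΓ | hΓ
    · have h5 : DiscreteTopology Γ := hΓ.1
      have h6 : CompactSpace (G ⧸ Γ) := hΓ.2
      exact h.udisc Γ
    · exact hΓ
    · obtain ⟨⟨U, hUo, hUc⟩, hd, hb⟩ := hΓ
      exact RapidDecay.UDisc.of_bounded U hUo hUc Γ hb
  obtain ⟨ℓ, hℓ, hrd⟩ := h.rd Γ hu
  exact ⟨ℓ, hℓ.nonneg, hℓ.inv, hℓ.mul_le, hrd⟩

end Pool.Agent.Results.MP_fee02f_an.UniformlyDiscreteSubgroups
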